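import Mathlib.LinearAlgebra.Matrix.Determinant.Basic
import Mathlib.LinearAlgebra.Projectivization.Basic

/-!
Permutations of the projective line induced by linear and semilinear maps.
-/

set_option autoImplicit false

namespace Pool.Agent.MP_47ed89_co

open scoped LinearAlgebra.Projectivization

/-- `σ` lies in `PΓL(2, F)`: it is induced by `v ↦ A (φ v)` for a field automorphism `φ` and an
invertible matrix `A`. -/
def IsPGammaL {F : Type} [Field F] (σ : Equiv.Perm (ℙ F (Fin 2 → F))) : Prop :=
  ∃ (φ : F ≃+* F) (A : Matrix (Fin 2) (Fin 2) F), A.det ≠ 0 ∧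
    ∀ (v w : Fin 2 → F) (hv : v ≠ 0) (hw : w ≠ 0), w = A.mulVec (fun i => φ (v i)) →
      σ (Projectivization.mk F v hv) = Projectivization.mk F w hw

/-- `σ` lies in `PSL(2, F)`: it is induced by a matrix of determinant one. -/
def IsPSL {F : Type} [Field F] (σ : Equiv.Perm (ℙ F (Fin 2 → F))) : Prop :=
  ∃ A : Matrix (Fin 2) (Fin 2) F, A.det = 1 ∧
    ∀ (v w : Fin 2 → F) (hv : v ≠ 0) (hw : w ≠ 0), w = A.mulVec v →
      σ (Projectivization.mk F v hv) = Projectivization.mk F w hw

end Pool.Agent.MP_47ed89_co
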