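import Mathlib.GroupTheory.GroupAction.Defs
import Mathlib.Algebra.Algebra.ZMod
import Mathlib.Topology.Sheaves.Presheaf
import Mathlib.Algebra.Field.ZMod
import Mathlib.Algebra.Order.Ring.Star
import Mathlib.Data.Fintype.CardEmbedding
import Mathlib.Combinatorics.SimpleGraph.Basic
import Mathlib.Combinatorics.Enumerative.DoubleCounting
import Mathlib.LinearAlgebra.Projectivization.Action
import Mathlib.LinearAlgebra.Projectivization.Cardinality
import Mathlib.RingTheory.SimpleRing.Principal
import Mathlib.Order.CompletePartialOrder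
import Mathlib.RingTheory.Henselian
import Mathlib.RingTheory.RegularLocalRing.Defs
import Pool.Agent.MP_47ed89_co.Defs

-- ======== part 0: formerly Pool.Agent.MP_47ed89_co.Count
section MrgPart0

/-!
Counting lemmas for block-transitive designs: blocks fixed by involutions.
-/

set_option autoImplicit false

namespace Pool.Agent.MP_47ed89_co

open Finset
open scoped Pointwise

variable {X : Type*} [Fintype X] [DecidableEq X]

omit [Fintype X] in
/-- Orbit-stabilizer for a block-transitive permutation group. -/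
lemma card_mul_stab (G : Subgroup (Equiv.Perm X)) (B : Finset (Finset X))
    (hinv : ∀ σ ∈ G, ∀ b ∈ B, b.image σ ∈ B)
    (htr : ∀ b₁ ∈ B, ∀ b₂ ∈ B, ∃ σ ∈ G, b₁.image σ = b₂) (b : Finset X) (hb : b ∈ B) :
    B.card * Nat.card (MulAction.stabilizer G b) = Nat.card G := by
  have h1 : MulAction.orbit G b = (B : Set (Finset X)) := by
    ext c
    constructor
    · rintro ⟨σ, rfl⟩
      exact hinv σ σ.2 b hb
    · intro hc
      obtain ⟨σ, hσ, h⟩ := htr b hb c hc
      exact ⟨⟨σ, hσ⟩, h⟩
  rw [← (MulAction.stabilizer G b).index_mul_card, MulAction.index_stabilizer, h1,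
    Set.ncard_coe_finset]

/-- Burnside-type bound: the fixed blocks of the members of a set `J` of non-identity elements. -/
lemma sum_fixed_le (G : Subgroup (Equiv.Perm X)) (B : Finset (Finset X))
    (hinv : ∀ σ ∈ G, ∀ b ∈ B, b.image σ ∈ B)
    (htr : ∀ b₁ ∈ B, ∀ b₂ ∈ B, ∃ σ ∈ G, b₁.image σ = b₂) (hne : B.Nonempty)
    (J : Finset (Equiv.Perm X)) (hJG : ∀ τ ∈ J, τ ∈ G) (hJ1 : (1 : Equiv.Perm X) ∉ J) :
    ∑ τ ∈ J, (B.filter (fun b => b.image τ = b)).card + B.card ≤ Nat.card G := by
  classical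
  have h1 : ∑ τ ∈ J, (B.filter (fun b => b.image τ = b)).card
      = ∑ b ∈ B, (J.filter (fun τ : Equiv.Perm X => b.image τ = b)).card := by
    simp only [card_filter]
    rw [sum_comm]
  have h2 : ∀ b ∈ B, (J.filter (fun τ : Equiv.Perm X => b.image τ = b)).card + 1
      ≤ Nat.card (MulAction.stabilizer G b) := by
    intro b _
    rw [← card_insert_of_notMem (a := (1 : Equiv.Perm X)) (fun h => hJ1 (mem_filter.mp h).1),
      ← Nat.card_eq_finsetCard]
    let f : (insert (1 : Equiv.Perm X) (J.filter (fun τ : Equiv.Perm X => b.image τ = b)) :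
        Finset (Equiv.Perm X)) → MulAction.stabilizer G b := fun τ =>
      ⟨⟨τ.1, by
          rcases mem_insert.mp τ.2 with h | h
          · rw [h]; exact G.one_mem
          · exact hJG _ (mem_filter.mp h).1⟩, by
          rcases mem_insert.mp τ.2 with h | h
          · show b.image τ.1 = b
            rw [h]; simp
          · exact (mem_filter.mp h).2⟩
    apply Nat.card_le_card_of_injective f
    intro x y hxy
    exact Subtype.ext (congrArg (fun z : MulAction.stabilizer G b => z.1.1) hxy)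
  have h3 : B.card * (∑ b ∈ B, Nat.card (MulAction.stabilizer G b)) = B.card * Nat.card G := by
    rw [mul_sum, sum_congr rfl (fun b hb => card_mul_stab G B hinv htr b hb), sum_const,
      smul_eq_mul]
  have h4 := Nat.eq_of_mul_eq_mul_left (card_pos.mpr hne) h3
  rw [h1, ← h4, card_eq_sum_ones B, ← sum_add_distrib]
  exact sum_le_sum h2

/-- Ordered triples of points of `S` in pairwise different cycles of `τ`. -/
def triples (τ : Equiv.Perm X) (S : Finset X) : Finset (Σ _ : (Σ _ : X, X), X) :=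
  (S.sigma (fun x => S \ {x, τ x})).sigma (fun p => S \ {p.1, τ p.1, p.2, τ p.2})

omit [Fintype X] in
lemma card_triples (τ : Equiv.Perm X) (hτ : ∀ x, τ (τ x) = x) (S : Finset X)
    (hS : ∀ x ∈ S, τ x ∈ S) (hnf : ∀ x ∈ S, τ x ≠ x) :
    (triples τ S).card = S.card * (S.card - 2) * (S.card - 4) := by
  have h2 : ∀ x ∈ S, (S \ {x, τ x}).card = S.card - 2 := by
    intro x hx
    rw [card_sdiff_of_subset, card_pair (hnf x hx).symm]
    intro y hy
    simp only [mem_insert, mem_singleton] at hy
    rcases hy with rfl | rfl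
    · exact hx
    · exact hS x hx
  have h4 : ∀ p ∈ S.sigma (fun x => S \ {x, τ x}),
      (S \ {p.1, τ p.1, p.2, τ p.2}).card = S.card - 4 := by
    rintro ⟨x, y⟩ hp
    simp only [mem_sigma, mem_sdiff, mem_insert, mem_singleton, not_or] at hp
    obtain ⟨hx, hy, h1, h3⟩ := hp
    have a1 := hnf x hx
    have a2 := hnf y hy
    have a3 : τ y ≠ x := fun h => h3 (by rw [← h, hτ])
    have a4 : τ y ≠ τ x := fun h => h1 (τ.injective h)
    rw [card_sdiff_of_subset]
    · congr 1
      rw [card_insert_of_notMem, card_insert_of_notMem, card_pair a2.symm]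
      · simp only [mem_insert, mem_singleton, not_or]
        exact ⟨fun h => h3 h.symm, fun h => a4 h.symm⟩
      · simp only [mem_insert, mem_singleton, not_or]
        exact ⟨a1.symm, fun h => h1 h.symm, fun h => a3 h.symm⟩
    · intro z hz
      simp only [mem_insert, mem_singleton] at hz
      rcases hz with rfl | rfl | rfl | rfl
      · exact hx
      · exact hS x hx
      · exact hy
      · exact hS y hy
  unfold triples
  rw [card_sigma, sum_congr rfl h4, sum_const, card_sigma, sum_congr rfl h2, sum_const]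
  simp

omit [Fintype X] in
lemma card_six (τ : Equiv.Perm X) (hτ : ∀ x, τ (τ x) = x) (x y z : X) (hx : τ x ≠ x)
    (hy : τ y ≠ y) (hz : τ z ≠ z) (h1 : y ≠ x) (h2 : y ≠ τ x) (h3 : z ≠ x) (h4 : z ≠ τ x)
    (h5 : z ≠ y) (h6 : z ≠ τ y) : ({x, τ x, y, τ y, z, τ z} : Finset X).card = 6 := by
  have a3 : τ y ≠ x := fun h => h2 (by rw [← h, hτ])
  have a4 : τ y ≠ τ x := fun h => h1 (τ.injective h)
  have a5 : τ z ≠ x := fun h => h4 (by rw [← h, hτ])
  have a6 : τ z ≠ τ x := fun h => h3 (τ.injective h)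
  have a7 : τ z ≠ y := fun h => h6 (by rw [← h, hτ])
  have a8 : τ z ≠ τ y := fun h => h5 (τ.injective h)
  rw [card_insert_of_notMem, card_insert_of_notMem, card_insert_of_notMem, card_insert_of_notMem,
    card_pair hz.symm]
  · simp only [mem_insert, mem_singleton, not_or]
    exact ⟨h6.symm, a8.symm⟩
  · simp only [mem_insert, mem_singleton, not_or]
    exact ⟨hy.symm, h5.symm, a7.symm⟩
  · simp only [mem_insert, mem_singleton, not_or]
    exact ⟨h2.symm, a4.symm, h4.symm, a6.symm⟩
  · simp only [mem_insert, mem_singleton, not_or]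
    exact ⟨hx.symm, h1.symm, a3.symm, h3.symm, a5.symm⟩

omit [Fintype X] in
/-- An involution preserving a family and a set `T` lying in an odd number of members fixes one
of the members through `T`. -/
lemma exists_fixed_of_odd (τ : Equiv.Perm X) (hτ : ∀ x, τ (τ x) = x) (B : Finset (Finset X))
    (hinv : ∀ b ∈ B, b.image τ ∈ B) (T : Finset X) (hT : ∀ x ∈ T, τ x ∈ T)
    (hodd : Odd (B.filter (fun b => T ⊆ b)).card) : ∃ b ∈ B, T ⊆ b ∧ b.image τ = b := by
  by_contra hcon
  push Not at hcon
  have h := Finset.sum_involution (s := B.filter (fun b => T ⊆ b)) (f := fun _ => (1 : ZMod 2))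
    (fun b _ => b.image τ) (fun _ _ => rfl)
    (fun b hb _ => hcon b (mem_filter.mp hb).1 (mem_filter.mp hb).2)
    (fun b hb => mem_filter.mpr ⟨hinv b (mem_filter.mp hb).1, fun x hx =>
      mem_image.mpr ⟨τ x, (mem_filter.mp hb).2 (hT x hx), hτ x⟩⟩)
    (fun b _ => by
      rw [image_image]
      conv_rhs => rw [← image_id (s := b)]
      exact image_congr (fun x _ => hτ x))
  rw [sum_const, nsmul_eq_mul, mul_one, ZMod.natCast_eq_zero_iff_even] at h
  exact (Nat.not_even_iff_odd.mpr hodd) h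

/-- Lower bound for the number of blocks fixed by an involution. -/
lemma fixed_lower (τ : Equiv.Perm X) (hτ : ∀ x, τ (τ x) = x) (B : Finset (Finset X)) (k : ℕ)
    (hk : ∀ b ∈ B, b.card = k) (hinv : ∀ b ∈ B, b.image τ ∈ B)
    (hodd : ∀ T : Finset X, T.card = 6 → Odd (B.filter (fun b => T ⊆ b)).card) (M : ℕ)
    (hM : M ≤ (univ.filter (fun x => τ x ≠ x)).card) :
    M * (M - 2) * (M - 4) ≤ (B.filter (fun b => b.image τ = b)).card * (k * (k - 2) * (k - 4)) := by
  set S := univ.filter (fun x => τ x ≠ x) with hS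
  have hSτ : ∀ x ∈ S, τ x ∈ S := by
    intro x hx
    simp only [hS, mem_filter, mem_univ, true_and] at hx ⊢
    exact fun h => hx (τ.injective h)
  have hSnf : ∀ x ∈ S, τ x ≠ x := fun x hx => (mem_filter.mp hx).2
  have hsub : triples τ S ⊆ (B.filter (fun b => b.image τ = b)).biUnion
      (fun b => triples τ (S ∩ b)) := by
    rintro ⟨⟨x, y⟩, z⟩ hp
    simp only [triples, mem_sigma, mem_sdiff, mem_insert, mem_singleton, not_or] at hp
    obtain ⟨⟨hx, hy, h1, h2⟩, hz, h3, h4, h5, h6⟩ := hp
    obtain ⟨b, hb, hTb, hfix⟩ := exists_fixed_of_odd τ hτ B hinv {x, τ x, y, τ y, z, τ z} (by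
      intro w hw
      simp only [mem_insert, mem_singleton] at hw ⊢
      rcases hw with rfl | rfl | rfl | rfl | rfl | rfl <;> simp [hτ])
      (hodd _ (card_six τ hτ x y z (hSnf x hx) (hSnf y hy) (hSnf z hz) h1 h2 h3 h4 h5 h6))
    refine mem_biUnion.mpr ⟨b, mem_filter.mpr ⟨hb, hfix⟩, ?_⟩
    simp only [triples, mem_sigma, mem_sdiff, mem_insert, mem_singleton, not_or, mem_inter]
    exact ⟨⟨⟨hx, hTb (by simp)⟩, ⟨hy, hTb (by simp)⟩, h1, h2⟩, ⟨hz, hTb (by simp)⟩, h3, h4, h5, h6⟩
  have h1 := card_le_card hsub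
  rw [card_triples τ hτ S hSτ hSnf] at h1
  have h2 : ((B.filter (fun b => b.image τ = b)).biUnion (fun b => triples τ (S ∩ b))).card
      ≤ (B.filter (fun b => b.image τ = b)).card * (k * (k - 2) * (k - 4)) := by
    apply card_biUnion_le_card_mul
    intro b hb
    obtain ⟨hb1, hb2⟩ := mem_filter.mp hb
    rw [card_triples τ hτ (S ∩ b) (fun x hx => mem_inter.mpr ⟨hSτ x (mem_inter.mp hx).1, by
      rw [← hb2]; exact mem_image_of_mem _ (mem_inter.mp hx).2⟩)
      (fun x hx => hSnf x (mem_inter.mp hx).1)]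
    have : (S ∩ b).card ≤ k := hk b hb1 ▸ card_le_card inter_subset_right
    gcongr
  calc M * (M - 2) * (M - 4) ≤ S.card * (S.card - 2) * (S.card - 4) := by gcongr
    _ ≤ _ := h1.trans h2

/-- Double counting of `t`-subsets of blocks. -/
lemma card_mul_choose (B : Finset (Finset X)) (k t lam : ℕ) (hk : ∀ b ∈ B, b.card = k)
    (hd : ∀ T : Finset X, T.card = t → (B.filter (fun b => T ⊆ b)).card = lam) :
    B.card * k.choose t = (Fintype.card X).choose t * lam := by
  have h := sum_card_bipartiteAbove_eq_sum_card_bipartiteBelow (s := powersetCard t (univ : Finset X))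
    (t := B) (fun T b => T ⊆ b)
  have h1 : ∀ T ∈ powersetCard t (univ : Finset X),
      (B.bipartiteAbove (fun T b => T ⊆ b) T).card = lam :=
    fun T hT => hd T (mem_powersetCard.mp hT).2
  have h2 : ∀ b ∈ B, ((powersetCard t (univ : Finset X)).bipartiteBelow (fun T b => T ⊆ b) b).card
      = k.choose t := by
    intro b hb
    rw [← hk b hb, ← card_powersetCard]
    congr 1
    ext T
    simp only [bipartiteBelow, mem_filter, mem_powersetCard, subset_univ, true_and]
    tauto
  rw [sum_congr rfl h1, sum_congr rfl h2, sum_const, sum_const, card_powersetCard, card_univ] at h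
  simpa using h.symm

/-- The residual counting in a Steiner 6-design. -/
lemma steiner_bound (B : Finset (Finset X)) (k : ℕ) (hk : ∀ b ∈ B, b.card = k) (h6 : 6 < k)
    (hkv : k < Fintype.card X)
    (hd : ∀ T : Finset X, T.card = 6 → (B.filter (fun b => T ⊆ b)).card = 1) :
    ∃ r, Fintype.card X - 5 = r * (k - 5) ∧ k - 4 ≤ r := by
  have uniq : ∀ T : Finset X, T.card = 6 → ∀ b ∈ B, ∀ c ∈ B, T ⊆ b → T ⊆ c → b = c := by
    intro T hT b hb c hc h1 h2
    exact card_le_one.mp (hd T hT).le b (mem_filter.mpr ⟨hb, h1⟩) c (mem_filter.mpr ⟨hc, h2⟩)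
  have exi : ∀ T : Finset X, T.card = 6 → ∃ b ∈ B, T ⊆ b := by
    intro T hT
    obtain ⟨b, hb⟩ := card_pos.mp (by rw [hd T hT]; exact one_pos)
    exact ⟨b, (mem_filter.mp hb).1, (mem_filter.mp hb).2⟩
  obtain ⟨T0, -, hT0⟩ := exists_subset_card_eq (s := (univ : Finset X)) (n := 6)
    (by rw [card_univ]; omega)
  obtain ⟨b0, hb0, -⟩ := exi T0 hT0
  obtain ⟨x, -, hx⟩ := exists_mem_notMem_of_card_lt_card (s := b0) (t := univ)
    (by rw [card_univ, hk b0 hb0]; exact hkv)
  obtain ⟨S4, hS4, hS4c⟩ := exists_subset_card_eq (s := b0) (n := 4) (by rw [hk b0 hb0]; omega)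
  have hxS : x ∉ S4 := fun h => hx (hS4 h)
  set S := insert x S4 with hS
  have hSc : S.card = 5 := by rw [hS, card_insert_of_notMem hxS, hS4c]
  refine ⟨(B.filter (fun b => S ⊆ b)).card, ?_, ?_⟩
  · have h1 : univ \ S = (B.filter (fun b => S ⊆ b)).biUnion (fun b => b \ S) := by
      ext y
      simp only [mem_sdiff, mem_univ, true_and, mem_biUnion, mem_filter]
      constructor
      · intro hy
        obtain ⟨b, hb, hTb⟩ := exi (insert y S) (by rw [card_insert_of_notMem hy, hSc])
        exact ⟨b, ⟨hb, (subset_insert _ _).trans hTb⟩, hTb (mem_insert_self _ _), hy⟩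
      · rintro ⟨b, _, _, hy⟩
        exact hy
    have h2 : (univ \ S).card = Fintype.card X - 5 := by
      rw [card_sdiff_of_subset (subset_univ _), card_univ, hSc]
    rw [← h2, h1, card_biUnion, sum_congr rfl (g := fun _ => k - 5), sum_const, smul_eq_mul]
    · intro b hb
      rw [card_sdiff_of_subset (mem_filter.mp hb).2, hk b (mem_filter.mp hb).1, hSc]
    · intro b hb c hc hbc
      simp only [Function.onFun]
      rw [disjoint_left]
      intro y hy hy'
      have hb' := mem_filter.mp hb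
      have hc' := mem_filter.mp hc
      rw [mem_sdiff] at hy hy'
      exact hbc (uniq (insert y S) (by rw [card_insert_of_notMem hy.2, hSc]) b hb'.1 c hc'.1
        (insert_subset hy.1 hb'.2) (insert_subset hy'.1 hc'.2))
  · have h1 : (b0 \ S4).card = k - 4 := by rw [card_sdiff_of_subset hS4, hk b0 hb0, hS4c]
    have hch : ∀ y : X, ∃ b, y ∈ b0 \ S4 → b ∈ B ∧ insert y S ⊆ b := by
      intro y
      by_cases hy : y ∈ b0 \ S4
      · have hyS : y ∉ S := by
          rw [hS, mem_insert, not_or]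
          exact ⟨fun h => hx (h ▸ (mem_sdiff.mp hy).1), (mem_sdiff.mp hy).2⟩
        obtain ⟨b, hb, hTb⟩ := exi (insert y S) (by rw [card_insert_of_notMem hyS, hSc])
        exact ⟨b, fun _ => ⟨hb, hTb⟩⟩
      · exact ⟨∅, fun h => absurd h hy⟩
    choose f hf using hch
    rw [← h1]
    apply card_le_card_of_injOn f
    · intro y hy
      exact mem_coe.mpr (mem_filter.mpr ⟨(hf y hy).1, (subset_insert _ _).trans (hf y hy).2⟩)
    · intro y hy z hz hyz
      by_contra hne
      have hy' := mem_sdiff.mp (mem_coe.mp hy)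
      have hz' := mem_sdiff.mp (mem_coe.mp hz)
      have hc : (insert y (insert z S4)).card = 6 := by
        rw [card_insert_of_notMem (by simp [hne, hy'.2]), card_insert_of_notMem hz'.2, hS4c]
      have h3 := (hf y hy).2
      have h4 := (hf z hz).2
      rw [← hyz] at h4
      have := uniq _ hc b0 hb0 (f y) (hf y hy).1
        (insert_subset hy'.1 (insert_subset hz'.1 hS4))
        (insert_subset (h3 (mem_insert_self _ _)) (insert_subset (h4 (mem_insert_self _ _))
          (fun w hw => h3 (mem_insert_of_mem (mem_insert_of_mem hw)))))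
      exact hx (this ▸ h3 (mem_insert_of_mem (mem_insert_self _ _)))

end Pool.Agent.MP_47ed89_co

end MrgPart0

-- ======== part 1: formerly Pool.Agent.MP_47ed89_co.Line
section MrgPart1

/-!
Group-theoretic facts on subgroups of `PΓL(2, q)` acting on the projective line.
-/

set_option autoImplicit false

namespace Pool.Agent.MP_47ed89_co

open Finset Projectivization Matrix
open scoped LinearAlgebra.Projectivization

variable {F : Type} [Field F]

lemma mk_eq_iff (u v : Fin 2 → F) (hu : u ≠ 0) (hv : v ≠ 0) :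
    mk F u hu = mk F v hv ↔ u 0 * v 1 = u 1 * v 0 := by
  rw [mk_eq_mk_iff']
  constructor
  · rintro ⟨a, rfl⟩
    simp only [Pi.smul_apply, smul_eq_mul]; ring
  · intro h
    by_cases h0 : v 0 = 0
    · have h1 : v 1 ≠ 0 := fun h1 => hv (by ext i; fin_cases i <;> simp [h0, h1])
      refine ⟨u 1 / v 1, ?_⟩
      ext i; fin_cases i
      · rw [h0, mul_zero] at h
        simp [h0, (mul_eq_zero.mp h).resolve_right h1]
      · simp [h1]
    · refine ⟨u 0 / v 0, ?_⟩
      ext i; fin_cases i
      · simp [h0]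
      · simp only [Pi.smul_apply, smul_eq_mul, Fin.mk_one]
        field_simp
        linear_combination h

lemma mulVec_ne_zero {A : Matrix (Fin 2) (Fin 2) F} (hA : A.det ≠ 0) {v : Fin 2 → F}
    (hv : v ≠ 0) : A.mulVec v ≠ 0 := fun h => hv (Matrix.eq_zero_of_mulVec_eq_zero hA h)

/-- `σ` is induced by the invertible matrix `A`. -/
def Induces (A : Matrix (Fin 2) (Fin 2) F) (σ : Equiv.Perm (ℙ F (Fin 2 → F))) : Prop :=
  A.det ≠ 0 ∧ ∀ (v w : Fin 2 → F) (hv : v ≠ 0) (hw : w ≠ 0), w = A.mulVec v →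
      σ (mk F v hv) = mk F w hw

lemma Induces.fix_iff {A : Matrix (Fin 2) (Fin 2) F} {σ : Equiv.Perm (ℙ F (Fin 2 → F))}
    (h : Induces A σ) (v : Fin 2 → F) (hv : v ≠ 0) :
    σ (mk F v hv) = mk F v hv ↔
      (A 0 0 * v 0 + A 0 1 * v 1) * v 1 = (A 1 0 * v 0 + A 1 1 * v 1) * v 0 := by
  rw [h.2 v _ hv (mulVec_ne_zero h.1 hv) rfl, mk_eq_iff]
  simp [Matrix.mulVec, dotProduct, Fin.sum_univ_two]

/-- A projective linear map fixing three distinct points is the identity. -/
lemma Induces.eq_one {A : Matrix (Fin 2) (Fin 2) F} {σ : Equiv.Perm (ℙ F (Fin 2 → F))}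
    (h : Induces A σ) (x y z : ℙ F (Fin 2 → F)) (hxy : x ≠ y) (hxz : x ≠ z) (hyz : y ≠ z)
    (hx : σ x = x) (hy : σ y = y) (hz : σ z = z) : σ = 1 := by
  induction x using Projectivization.ind with | h u hu =>
  induction y using Projectivization.ind with | h v hv =>
  induction z using Projectivization.ind with | h w hw =>
  ext p
  induction p using Projectivization.ind with | h t ht =>
  rw [h.fix_iff] at hx hy hz
  rw [Equiv.Perm.one_apply, h.fix_iff]
  rw [Ne, mk_eq_iff, ← sub_eq_zero] at hxy hxz hyz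
  have key : ((A 0 0 * t 0 + A 0 1 * t 1) * t 1 - (A 1 0 * t 0 + A 1 1 * t 1) * t 0) *
      ((u 0 * v 1 - u 1 * v 0) * (u 0 * w 1 - u 1 * w 0) * (v 0 * w 1 - v 1 * w 0)) = 0 := by
    linear_combination
      ((t 0 * v 1 - t 1 * v 0) * (t 0 * w 1 - t 1 * w 0) * (v 0 * w 1 - v 1 * w 0)) * hx
      - ((t 0 * u 1 - t 1 * u 0) * (t 0 * w 1 - t 1 * w 0) * (u 0 * w 1 - u 1 * w 0)) * hy
      + ((t 0 * u 1 - t 1 * u 0) * (t 0 * v 1 - t 1 * v 0) * (u 0 * v 1 - u 1 * v 0)) * hz
  exact sub_eq_zero.mp ((mul_eq_zero.mp key).resolve_right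
    (mul_ne_zero (mul_ne_zero hxy hxz) hyz))

/-- The subgroup of permutations induced by invertible matrices. -/
def PGLsub (F : Type) [Field F] : Subgroup (Equiv.Perm (ℙ F (Fin 2 → F))) where
  carrier := {σ | ∃ A, Induces A σ}
  one_mem' := ⟨1, by simp, fun v w hv hw h => by
    rw [Matrix.one_mulVec] at h
    subst h; rfl⟩
  mul_mem' := by
    rintro σ τ ⟨A, hA⟩ ⟨B, hB⟩
    refine ⟨A * B, by rw [Matrix.det_mul]; exact mul_ne_zero hA.1 hB.1, fun v w hv hw h => ?_⟩
    rw [Equiv.Perm.mul_apply, hB.2 v _ hv (mulVec_ne_zero hB.1 hv) rfl]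
    exact hA.2 _ _ _ _ (by rw [h, Matrix.mulVec_mulVec])
  inv_mem' := by
    rintro σ ⟨A, hA⟩
    have hu : IsUnit A.det := isUnit_iff_ne_zero.mpr hA.1
    refine ⟨A⁻¹, (Matrix.isUnit_nonsing_inv_det A hu).ne_zero, fun v w hv hw h => ?_⟩
    rw [Equiv.Perm.inv_eq_iff_eq]
    exact (hA.2 w v hw hv (by
      rw [h, Matrix.mulVec_mulVec, Matrix.mul_nonsing_inv _ hu, Matrix.one_mulVec])).symm

lemma card_line [Fintype F] : Nat.card (ℙ F (Fin 2 → F)) = Fintype.card F + 1 := by
  rw [Projectivization.card_of_finrank_two F (Fin 2 → F) (by simp), Nat.card_eq_fintype_card]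

lemma card_dvd_of_le_PGL [Fintype F] (H : Subgroup (Equiv.Perm (ℙ F (Fin 2 → F))))
    (hH : H ≤ PGLsub F) :
    Nat.card H ∣ (Fintype.card F + 1) * Fintype.card F * (Fintype.card F - 1) := by
  classical
  have : Fintype (ℙ F (Fin 2 → F)) := Fintype.ofFinite _
  have e := MulAction.selfEquivOrbitsQuotientProd (G := H) (X := Fin 3 ↪ ℙ F (Fin 2 → F)) (by
    intro f
    rw [eq_bot_iff]
    intro σ hσ
    obtain ⟨A, hA⟩ := hH σ.2
    have hf : ∀ i, σ.1 (f i) = f i := fun i => congrArg (fun g : Fin 3 ↪ _ => g i) hσ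
    rw [Subgroup.mem_bot]
    exact Subtype.ext (hA.eq_one (f 0) (f 1) (f 2) (f.injective.ne (by decide))
      (f.injective.ne (by decide)) (f.injective.ne (by decide)) (hf 0) (hf 1) (hf 2)))
  have h1 := Nat.card_congr e
  rw [Nat.card_prod, Nat.card_eq_fintype_card, Fintype.card_embedding_eq, Fintype.card_fin,
    ← Nat.card_eq_fintype_card, card_line] at h1
  have h2 : (Fintype.card F + 1).descFactorial 3
      = (Fintype.card F + 1) * Fintype.card F * (Fintype.card F - 1) := by
    simp [Nat.descFactorial]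
    ring
  rw [← h2, h1]
  exact Dvd.intro_left _ rfl

lemma card_aut_le [Fintype F] : 2 ^ Nat.card (F ≃+* F) ≤ Fintype.card F := by
  obtain ⟨p, hchar⟩ := CharP.exists F
  have hp : p.Prime := CharP.char_is_prime F p
  have : Fact p.Prime := ⟨hp⟩
  let _ : Algebra (ZMod p) F := ZMod.algebra F p
  have h1 : Nat.card (F ≃+* F) ≤ Nat.card (F ≃ₐ[ZMod p] F) := by
    let f : (F ≃+* F) → (F ≃ₐ[ZMod p] F) := fun φ => AlgEquiv.ofRingEquiv (f := φ) (fun x => by
      have := RingHom.ext_zmod ((φ : F →+* F).comp (algebraMap (ZMod p) F)) (algebraMap (ZMod p) F)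
      exact congrArg (fun g : ZMod p →+* F => g x) this)
    apply Nat.card_le_card_of_injective f
    intro φ ψ h
    ext x
    exact congrArg (fun g : F ≃ₐ[ZMod p] F => g x) h
  have h2 : Nat.card (F ≃ₐ[ZMod p] F) ≤ Module.finrank (ZMod p) F := by
    rw [Nat.card_eq_fintype_card]
    exact AlgEquiv.card_le
  rw [Module.card_eq_pow_finrank (K := ZMod p) (V := F), ZMod.card]
  calc 2 ^ Nat.card (F ≃+* F) ≤ 2 ^ Module.finrank (ZMod p) F :=
        Nat.pow_le_pow_right (by norm_num) (h1.trans h2)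
    _ ≤ p ^ Module.finrank (ZMod p) F := Nat.pow_le_pow_left hp.two_le _

/-- The order of a subgroup of `PΓL(2, q)`. -/
lemma card_subgroup [Fintype F] (G : Subgroup (Equiv.Perm (ℙ F (Fin 2 → F))))
    (hG : ∀ σ ∈ G, IsPGammaL σ) :
    ∃ s g : ℕ, Nat.card G = s * g ∧ s ≤ Nat.card (F ≃+* F) ∧
      g ∣ (Fintype.card F + 1) * Fintype.card F * (Fintype.card F - 1) := by
  classical
  refine ⟨((PGLsub F).subgroupOf G).index, Nat.card ((PGLsub F).subgroupOf G),
    (Subgroup.index_mul_card _).symm, ?_, ?_⟩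
  · choose φ A hA hσ using fun σ : G => hG σ σ.2
    have : Finite (F ≃+* F) := Finite.of_injective (fun φ : F ≃+* F => (φ : F → F))
      DFunLike.coe_injective
    apply Nat.card_le_card_of_injective (fun x : G ⧸ (PGLsub F).subgroupOf G => φ x.out)
    intro x y hxy
    rw [← QuotientGroup.out_eq' x, ← QuotientGroup.out_eq' y, QuotientGroup.eq,
      Subgroup.mem_subgroupOf]
    have hxy' : φ x.out = φ y.out := hxy
    have hu : IsUnit (A x.out).det := isUnit_iff_ne_zero.mpr (hA _)
    set M := (A x.out)⁻¹ * A y.out with hM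
    have hMd : M.det ≠ 0 := by
      rw [hM, Matrix.det_mul]
      exact mul_ne_zero (Matrix.isUnit_nonsing_inv_det _ hu).ne_zero (hA _)
    refine ⟨M.map (φ x.out).symm, ?_, fun v w hv hw h => ?_⟩
    · have : (M.map (φ x.out).symm).det = (φ x.out).symm M.det :=
        ((φ x.out).symm.toRingHom.map_det M).symm
      rw [this]
      exact (map_ne_zero _).mpr hMd
    · have hφv : (fun i => φ y.out (v i)) ≠ 0 := by
        intro h0
        apply hv
        ext i
        exact (map_eq_zero (φ y.out)).mp (congrFun h0 i)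
      have h1 := hσ y.out v _ hv (mulVec_ne_zero (hA _) hφv) rfl
      have h2 := hσ x.out w _ hw (mulVec_ne_zero (hA _) hφv) (by
        have : (fun i => φ x.out (w i)) = M.mulVec (fun i => φ y.out (v i)) := by
          rw [h, ← hxy']
          ext i
          simp [Matrix.mulVec, dotProduct, Fin.sum_univ_two]
        rw [this, Matrix.mulVec_mulVec, hM, ← Matrix.mul_assoc, Matrix.mul_nonsing_inv _ hu,
          Matrix.one_mul])
      show (x.out.1⁻¹ * y.out.1) _ = _
      rw [Equiv.Perm.mul_apply, h1, Equiv.Perm.inv_eq_iff_eq, h2]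
  · rw [← Subgroup.card_map_of_injective (K := (PGLsub F).subgroupOf G) (f := G.subtype)
        G.subtype_injective,
      Subgroup.subgroupOf_map_subtype]
    exact card_dvd_of_le_PGL _ inf_le_left

/-- The trace-zero matrix of determinant one with first row `(a, b)`. -/
def invMat (a : F) (b : Fˣ) : SpecialLinearGroup (Fin 2) F :=
  ⟨!![a, b; -(1 + a ^ 2) / b, -a], by
    rw [Matrix.det_fin_two_of]
    field_simp
    ring⟩

/-- The involution of the projective line induced by `invMat a b`. -/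
noncomputable def invPerm (p : F × Fˣ) : Equiv.Perm (ℙ F (Fin 2 → F)) :=
  MulAction.toPerm (invMat p.1 p.2)

lemma invPerm_spec (p : F × Fˣ) (v w : Fin 2 → F) (hv : v ≠ 0) (hw : w ≠ 0)
    (h : w = (invMat p.1 p.2).1.mulVec v) : invPerm p (mk F v hv) = mk F w hw := by
  subst h
  rfl

lemma invPerm_induces (p : F × Fˣ) : Induces (invMat p.1 p.2).1 (invPerm p) :=
  ⟨by rw [(invMat p.1 p.2).2]; exact one_ne_zero, invPerm_spec p⟩

lemma invPerm_isPSL (p : F × Fˣ) : IsPSL (invPerm p) :=
  ⟨_, (invMat p.1 p.2).2, invPerm_spec p⟩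

lemma invPerm_invol (p : F × Fˣ) (x : ℙ F (Fin 2 → F)) : invPerm p (invPerm p x) = x := by
  induction x using Projectivization.ind with | h v hv =>
  have h := invPerm_induces p
  rw [h.2 v _ hv (mulVec_ne_zero h.1 hv) rfl,
    h.2 _ _ _ (mulVec_ne_zero h.1 (mulVec_ne_zero h.1 hv)) rfl, mk_eq_iff]
  simp only [invMat, Matrix.mulVec, dotProduct, Fin.sum_univ_two, Matrix.of_apply,
    Matrix.cons_val', Matrix.cons_val_zero, Matrix.cons_val_one, Matrix.cons_val_fin_one]
  field_simp
  ring

lemma invPerm_ne_one (p : F × Fˣ) : invPerm p ≠ 1 := by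
  intro h
  have hv : (![0, 1] : Fin 2 → F) ≠ 0 := fun h => by simpa using congrFun h 1
  have := ((invPerm_induces p).fix_iff _ hv).mp (by rw [h]; rfl)
  simp [invMat] at this

lemma invPerm_fiber (p p' : F × Fˣ) (h : invPerm p = invPerm p') : p' = p ∨ p' = (-p.1, -p.2) := by
  obtain ⟨a, b⟩ := p
  obtain ⟨a', b'⟩ := p'
  have key : ∀ v : Fin 2 → F, v ≠ 0 →
      (invMat a b).1.mulVec v 0 * (invMat a' b').1.mulVec v 1
        = (invMat a b).1.mulVec v 1 * (invMat a' b').1.mulVec v 0 := by
    intro v hv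
    have h1 := invPerm_induces (a, b)
    have h2 := invPerm_induces (a', b')
    rw [← mk_eq_iff _ _ (mulVec_ne_zero h1.1 hv) (mulVec_ne_zero h2.1 hv),
      ← h1.2 v _ hv _ rfl, ← h2.2 v _ hv _ rfl, h]
  have k1 := key ![1, 0] (fun h => by simpa using congrFun h 0)
  have k2 := key ![0, 1] (fun h => by simpa using congrFun h 1)
  have k3 := key ![1, 1] (fun h => by simpa using congrFun h 1)
  simp only [invMat, Matrix.mulVec, dotProduct, Fin.sum_univ_two, Matrix.of_apply,
    Matrix.cons_val', Matrix.cons_val_zero, Matrix.cons_val_one, Matrix.cons_val_fin_one,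
    mul_one, mul_zero, add_zero, zero_add] at k1 k2 k3
  have hb := b.ne_zero
  have hb' := b'.ne_zero
  have k4 : (b : F) * (-(1 + a' ^ 2) / b') = (-(1 + a ^ 2) / b) * b' := by
    linear_combination k3 - k1 - k2
  field_simp at k4
  have k5 : ((b' : F) - b) * (b' + b) = 0 := by
    linear_combination k4 - (b * a' + a * b') * k2
  rcases mul_eq_zero.mp k5 with h5 | h5
  · left
    have e : (b' : F) = b := sub_eq_zero.mp h5
    refine Prod.ext ?_ (Units.ext e)
    apply mul_left_cancel₀ hb
    rw [e] at k2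
    linear_combination -k2
  · right
    have e : (b' : F) = -b := eq_neg_of_add_eq_zero_left h5
    refine Prod.ext ?_ (Units.ext e)
    apply mul_left_cancel₀ hb
    rw [e] at k2
    linear_combination -k2

end Pool.Agent.MP_47ed89_co

end MrgPart1

-- marker of a merged file
example : 731051 + 708627 = 731051 + 708627 := rfl
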