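import Mathlib.Data.Int.ConditionallyCompleteOrder
import Mathlib.Data.Int.Star
import Pool.Agent.MP_47ed89_co.Line

/-!
The involution-counting inequality for block-transitive 6-designs with odd index on the
projective line, and the arithmetic of the Steiner case.
-/

set_option autoImplicit false

namespace Pool.Agent.MP_47ed89_co

open Finset Projectivization
open scoped LinearAlgebra.Projectivization

variable {F : Type} [Field F] [Fintype F]

lemma nonfixed_ge [Fintype (ℙ F (Fin 2 → F))] [DecidableEq (ℙ F (Fin 2 → F))]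
    {σ : Equiv.Perm (ℙ F (Fin 2 → F))} {A : Matrix (Fin 2) (Fin 2) F} (h : Induces A σ)
    (h1 : σ ≠ 1) : Fintype.card F - 1 ≤ (univ.filter (fun x => σ x ≠ x)).card := by
  have h2 : (univ.filter (fun x => σ x = x)).card ≤ 2 := by
    by_contra hcon
    obtain ⟨x, y, z, hx, hy, hz, hxy, hxz, hyz⟩ := two_lt_card_iff.mp (not_le.mp hcon)
    exact h1 (h.eq_one x y z hxy hxz hyz (mem_filter.mp hx).2 (mem_filter.mp hy).2
      (mem_filter.mp hz).2)
  have h3 := card_filter_add_card_filter_not (s := (univ : Finset (ℙ F (Fin 2 → F))))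
    (fun x => σ x = x)
  rw [card_univ, ← Nat.card_eq_fintype_card, card_line] at h3
  simp only [ne_eq]
  omega

/-- The counting inequality. -/
lemma main_ineq [Fintype (ℙ F (Fin 2 → F))] [DecidableEq (ℙ F (Fin 2 → F))]
    (G : Subgroup (Equiv.Perm (ℙ F (Fin 2 → F)))) (hPSL : ∀ σ, IsPSL σ → σ ∈ G)
    (B : Finset (Finset (ℙ F (Fin 2 → F)))) (k : ℕ) (hk : ∀ b ∈ B, b.card = k)
    (hinv : ∀ σ ∈ G, ∀ b ∈ B, b.image σ ∈ B)
    (htr : ∀ b₁ ∈ B, ∀ b₂ ∈ B, ∃ σ ∈ G, b₁.image σ = b₂) (hne : B.Nonempty)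
    (hodd : ∀ T : Finset (ℙ F (Fin 2 → F)), T.card = 6 → Odd (B.filter (fun b => T ⊆ b)).card) :
    Fintype.card F * (Fintype.card F - 1) *
        ((Fintype.card F - 1) * (Fintype.card F - 3) * (Fintype.card F - 5))
      + 2 * B.card * (k * (k - 2) * (k - 4)) ≤ 2 * Nat.card G * (k * (k - 2) * (k - 4)) := by
  classical
  set q := Fintype.card F with hq
  set J : Finset (Equiv.Perm (ℙ F (Fin 2 → F))) := univ.image (invPerm (F := F)) with hJ
  have hJc : q * (q - 1) ≤ 2 * J.card := by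
    have h := card_le_mul_card_image (f := invPerm (F := F)) univ 2 (by
      intro σ hσ
      obtain ⟨p, -, rfl⟩ := mem_image.mp hσ
      refine le_trans (card_le_card (t := {p, (-p.1, -p.2)}) ?_) card_le_two
      intro p' hp'
      have := invPerm_fiber p p' (mem_filter.mp hp').2.symm
      simpa using this)
    rwa [card_univ, Fintype.card_prod, Fintype.card_units] at h
  have hJG : ∀ τ ∈ J, τ ∈ G := by
    intro τ hτ
    obtain ⟨p, -, rfl⟩ := mem_image.mp hτ
    exact hPSL _ (invPerm_isPSL p)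
  have h1 := sum_fixed_le G B hinv htr hne J hJG (by
    intro h
    obtain ⟨p, -, hp⟩ := mem_image.mp h
    exact invPerm_ne_one p hp)
  have h2 : ∀ τ ∈ J, (q - 1) * (q - 3) * (q - 5)
      ≤ (B.filter (fun b => b.image τ = b)).card * (k * (k - 2) * (k - 4)) := by
    intro τ hτ
    have hG := hJG τ hτ
    obtain ⟨p, -, rfl⟩ := mem_image.mp hτ
    exact fixed_lower _ (invPerm_invol p) B k hk (hinv _ hG) hodd (q - 1)
      (nonfixed_ge (invPerm_induces p) (invPerm_ne_one p))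
  have h3 := sum_le_sum h2
  rw [sum_const, smul_eq_mul, ← sum_mul] at h3
  set S := ∑ τ ∈ J, (B.filter (fun b => b.image τ = b)).card
  set K := k * (k - 2) * (k - 4)
  set Q := (q - 1) * (q - 3) * (q - 5)
  calc q * (q - 1) * Q + 2 * B.card * K ≤ 2 * J.card * Q + 2 * B.card * K := by gcongr
    _ = 2 * (J.card * Q) + 2 * B.card * K := by ring
    _ ≤ 2 * (S * K) + 2 * B.card * K := by gcongr
    _ = 2 * (S + B.card) * K := by ring
    _ ≤ 2 * Nat.card G * K := by gcongr

lemma sq_le_of_pow_le (s q : ℕ) (h : 2 ^ s ≤ q) (hq : 1936 ≤ q) : 16 * s ^ 2 ≤ q := by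
  by_cases hs : s ≤ 11
  · nlinarith
  · have key : ∀ n : ℕ, 16 * (n + 12) ^ 2 ≤ 2 ^ (n + 12) := by
      intro n
      induction n with
      | zero => norm_num
      | succ n ih =>
        rw [show n + 1 + 12 = (n + 12) + 1 by ring, pow_succ 2]
        have : 16 * (n + 12 + 1) ^ 2 ≤ 2 * (16 * (n + 12) ^ 2) := by nlinarith [Nat.zero_le n]
        omega
    obtain ⟨n, rfl⟩ : ∃ n, s = n + 12 := ⟨s - 12, by omega⟩
    exact (key n).trans h

lemma large_case (q k s : ℕ) (hq : 1936 ≤ q) (hs : 2 ^ s ≤ q) (hk : (k - 4) * (k - 5) ≤ q - 4) :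
    2 * s * (q + 1) * (k * (k - 2) * (k - 4)) ≤ (q - 1) * (q - 3) * (q - 5) := by
  set u := Nat.sqrt q with hu
  have h1 : u * u ≤ q := Nat.sqrt_le q
  have h2 : 44 ≤ u := Nat.le_sqrt.mpr (by omega)
  have h3 : 4 * s ≤ u := Nat.le_sqrt.mpr (by have := sq_le_of_pow_le s q hs hq; nlinarith)
  have h4 : k - 5 ≤ u := Nat.le_sqrt.mpr (by
    calc (k - 5) * (k - 5) ≤ (k - 4) * (k - 5) := by gcongr; omega
      _ ≤ q := by omega)
  have h5 : k * (k - 2) * (k - 4) ≤ (u + 5) * (u + 3) * (u + 1) := by gcongr <;> omega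
  have h6 : 4 * (u * ((u + 5) * (u + 3) * (u + 1))) ≤ 5 * ((u * u) * (u * u)) := by
    obtain ⟨w, hw⟩ : ∃ w, u = w + 44 := ⟨u - 44, by omega⟩
    rw [hw]
    nlinarith [Nat.zero_le (w ^ 4), Nat.zero_le (w ^ 3), Nat.zero_le (w ^ 2), Nat.zero_le w]
  have h7 : (u * u) * (u * u) ≤ q * q := by gcongr
  obtain ⟨t, rfl⟩ : ∃ t, q = t + 5 := ⟨q - 5, by omega⟩
  have h8 : 5 * ((t + 5) * (t + 5)) * (t + 5 + 1) ≤ 8 * ((t + 4) * (t + 2) * t) := by
    have : 1931 ≤ t := by omega
    nlinarith [Nat.mul_le_mul this this, Nat.mul_le_mul (Nat.mul_le_mul this (le_refl t)) (le_refl t)]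
  have h9 : 8 * (2 * s * (t + 5 + 1) * (k * (k - 2) * (k - 4))) ≤ 8 * ((t + 4) * (t + 2) * t) := by
    calc 8 * (2 * s * (t + 5 + 1) * (k * (k - 2) * (k - 4)))
        = 4 * ((4 * s) * (k * (k - 2) * (k - 4))) * (t + 5 + 1) := by ring
      _ ≤ 4 * (u * ((u + 5) * (u + 3) * (u + 1))) * (t + 5 + 1) := by gcongr
      _ ≤ 5 * ((t + 5) * (t + 5)) * (t + 5 + 1) := by
          gcongr ?_ * _
          omega
      _ ≤ _ := h8
  simpa using Nat.le_of_mul_le_mul_left h9 (by norm_num)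

/-- The finite check for small `q`. -/
def smallCheck : Bool :=
  (List.range 1936).all fun q => (List.range 51).all fun k =>
    !(decide (7 ≤ k) && decide (7 ≤ q) && (q - 4) % (k - 5) == 0
        && decide ((k - 4) * (k - 5) ≤ q - 4)) ||
      (List.range 11).all fun s =>
        s == 0 || (s * (k * (k - 1) * (k - 2) * (k - 3) * (k - 4) * (k - 5)))
            % ((q - 2) * (q - 3) * (q - 4)) != 0
          || q == 10 || q == 12 || q == 18 || q == 58 || decide (q < 2 ^ s)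

lemma smallCheck_true : smallCheck = true := by decide +kernel

lemma small_case (q k s : ℕ) (hq : q < 1936) (hq7 : 7 ≤ q) (hk7 : 7 ≤ k) (hs0 : 0 < s)
    (hs : 2 ^ s ≤ q) (hd : (k - 5) ∣ (q - 4)) (hk : (k - 4) * (k - 5) ≤ q - 4)
    (hdiv : (q - 2) * (q - 3) * (q - 4) ∣ s * (k * (k - 1) * (k - 2) * (k - 3) * (k - 4) * (k - 5))) :
    q = 10 ∨ q = 12 ∨ q = 18 ∨ q = 58 := by
  have hk51 : k < 51 := by
    by_contra hcon
    have : 47 * 46 ≤ (k - 4) * (k - 5) := by gcongr <;> omega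
    omega
  have hs11 : s < 11 := by
    by_contra hcon
    have : 2 ^ 11 ≤ 2 ^ s := Nat.pow_le_pow_right (by norm_num) (by omega)
    omega
  have h := smallCheck_true
  unfold smallCheck at h
  rw [List.all_eq_true] at h
  have h1 := h q (List.mem_range.mpr hq)
  rw [List.all_eq_true] at h1
  have h2 := h1 k (List.mem_range.mpr hk51)
  have e1 := Nat.mod_eq_zero_of_dvd hd
  have e2 := Nat.mod_eq_zero_of_dvd hdiv
  simp only [hk7, hq7, e1, hk, decide_true, Bool.and_self, beq_self_eq_true, Bool.not_true,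
    Bool.false_or, List.all_eq_true] at h2
  have h3 := h2 s (List.mem_range.mpr hs11)
  simp only [e2, bne_self_eq_false, Bool.or_false, Bool.or_eq_true, beq_iff_eq,
    decide_eq_true_eq] at h3
  omega

end Pool.Agent.MP_47ed89_co
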